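import Mathlib

/-!
Determinant tools for Laurent's interpolation determinant method.
-/

set_option autoImplicit false

namespace Pool.Agent.Lib.Common.TwoLogs

open Finset

/-- The sum of the elements of a finite set of naturals. -/
theorem card_mul_le_two_mul_sum (s : Finset ℕ) :
    (s.card : ℝ) * (s.card - 1) ≤ 2 * ∑ x ∈ s, (x : ℝ) := by
  induction s using Finset.induction_on_max with
  | empty => simp
  | insert a s ha ih =>
    have hna : a ∉ s := fun h => lt_irrefl _ (ha a h)
    have hsub : s ⊆ range a := fun x hx => mem_range.mpr (ha x hx)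
    have hc : (s.card : ℝ) ≤ a := by
      have := card_le_card hsub
      rw [card_range] at this
      exact_mod_cast this
    rw [card_insert_of_notMem hna, sum_insert hna]
    push_cast
    nlinarith

/-- Row-wise bound for a determinant. -/
theorem abs_det_le_prod {ι : Type} [Fintype ι] [DecidableEq ι] (M : Matrix ι ι ℝ) (β : ι → ℝ)
    (h : ∀ i j, |M i j| ≤ β i) :
    |M.det| ≤ (Fintype.card ι).factorial * ∏ i, β i := by
  rw [Matrix.det_apply']
  refine (abs_sum_le_sum_abs _ _).trans ?_
  have : ∀ σ : Equiv.Perm ι,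
      |((Equiv.Perm.sign σ : ℤ) : ℝ) * ∏ i, M (σ i) i| ≤ ∏ i, β i := by
    intro σ
    rw [abs_mul, Finset.abs_prod]
    have h1 : |((Equiv.Perm.sign σ : ℤ) : ℝ)| = 1 := by
      rcases Int.units_eq_one_or (Equiv.Perm.sign σ) with h | h <;> simp [h]
    rw [h1, one_mul, ← Equiv.prod_comp σ β]
    exact prod_le_prod (fun i _ => abs_nonneg _) (fun i _ => h _ _)
  refine (sum_le_sum fun σ _ => this σ).trans ?_
  rw [sum_const, card_univ, Fintype.card_perm, nsmul_eq_mul]

/-- The analytic estimate for an interpolation determinant. -/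
theorem abs_det_le {ι : Type} [Fintype ι] [DecidableEq ι] (T : ℕ) (x : ι → ℝ)
    (w : ι → Fin T → ℝ) (d : ι → Fin T → ℕ) (e : ι → ι → ℝ) (ρ M0 q : ℝ) (hM0 : 0 ≤ M0)
    (hq0 : 0 ≤ q) (hx : ∀ j, |x j| ≤ ρ)
    (hw : ∀ i u, |w i u| * ρ ^ d i u ≤ M0 * Real.exp (-q * d i u))
    (he : ∀ i j, |e i j| ≤ M0 * Real.exp (-q * Fintype.card ι)) :
    |(Matrix.of fun i j => ∑ u, w i u * x j ^ d i u + e i j).det| ≤
      (T + 1 : ℝ) ^ Fintype.card ι * ((Fintype.card ι).factorial * (M0 ^ Fintype.card ι *
        Real.exp (-q * (Fintype.card ι * (Fintype.card ι - 1) / 2)))) := by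
  set N := Fintype.card ι with hN
  let g : ι → Option (Fin T) → ι → ℝ := fun i o =>
    o.elim (e i) (fun u => w i u • fun j => x j ^ d i u)
  have hM : (Matrix.of fun i j => ∑ u, w i u * x j ^ d i u + e i j) =
      Matrix.of (fun i => ∑ o, g i o) := by
    ext i j
    simp [g, Fintype.sum_option, add_comm]
  have hdet : (Matrix.of (fun i => ∑ o, g i o)).det =
      ∑ r : ι → Option (Fin T), (Matrix.of fun i => g i (r i)).det :=
    (Matrix.detRowAlternating (n := ι) (R := ℝ)).toMultilinearMap.map_sum g
  rw [hM, hdet]
  refine (abs_sum_le_sum_abs _ _).trans ?_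
  have key : ∀ r : ι → Option (Fin T), |(Matrix.of fun i => g i (r i)).det| ≤
      N.factorial * (M0 ^ N * Real.exp (-q * (N * (N - 1) / 2))) := by
    intro r
    by_cases hinj : ∃ i i' u u', i ≠ i' ∧ r i = some u ∧ r i' = some u' ∧ d i u = d i' u'
    · obtain ⟨i, i', u, u', hne, hu, hu', hd⟩ := hinj
      let c : ι → ℝ := fun i => (r i).elim 1 (fun u => w i u)
      let m : ι → ι → ℝ := fun i => (r i).elim (e i) (fun u => fun j => x j ^ d i u)
      have h1 : (fun i => g i (r i)) = fun i => c i • m i := by
        funext i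
        rcases h : r i with _ | u <;> simp [g, c, m, h]
      have h2 : (Matrix.of fun i => c i • m i).det = (∏ i, c i) • (Matrix.of m).det :=
        (Matrix.detRowAlternating (n := ι) (R := ℝ)).toMultilinearMap.map_smul_univ c m
      have h3 : (Matrix.of m).det = 0 := by
        refine Matrix.det_zero_of_row_eq hne ?_
        funext j
        simp [m, hu, hu', hd]
      rw [h1, h2, h3, smul_zero, abs_zero]
      positivity
    · let W : ι → ℕ := fun i => (r i).elim N (fun u => d i u)
      have h1 : ∀ i j, |(Matrix.of fun i => g i (r i)) i j| ≤ M0 * Real.exp (-q * W i) := by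
        intro i j
        rcases h : r i with _ | u
        · simpa [g, W, h] using he i j
        · have : |w i u * x j ^ d i u| ≤ M0 * Real.exp (-q * d i u) := by
            refine le_trans ?_ (hw i u)
            rw [abs_mul, abs_pow]
            exact mul_le_mul_of_nonneg_left (pow_le_pow_left₀ (abs_nonneg _) (hx j) _)
              (abs_nonneg _)
          simpa [g, W, h] using this
      refine (abs_det_le_prod _ _ h1).trans ?_
      refine mul_le_mul_of_nonneg_left ?_ (by positivity)
      rw [prod_mul_distrib, prod_const, card_univ, ← Real.exp_sum]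
      refine mul_le_mul_of_nonneg_left (Real.exp_le_exp.mpr ?_) (by positivity)
      rw [← mul_sum]
      have hsum : (N : ℝ) * (N - 1) / 2 ≤ ∑ i, (W i : ℝ) := by
        let I : Finset ι := univ.filter fun i => (r i).isSome
        have hI : Set.InjOn W I := by
          intro i hi i' hi' hW
          by_contra hne
          obtain ⟨u, hu⟩ := Option.isSome_iff_exists.mp (mem_filter.mp hi).2
          obtain ⟨u', hu'⟩ := Option.isSome_iff_exists.mp (mem_filter.mp hi').2
          exact hinj ⟨i, i', u, u', hne, hu, hu', by simpa [W, hu, hu'] using hW⟩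
        have h2 := card_mul_le_two_mul_sum (I.image W)
        rw [card_image_of_injOn hI, sum_image hI] at h2
        have h3 : ∑ i ∈ Iᶜ, (W i : ℝ) = (N - I.card) * N := by
          rw [sum_congr rfl (g := fun _ => (N : ℝ)), sum_const, card_compl, nsmul_eq_mul,
            Nat.cast_sub (card_le_univ I)]
          intro i hi
          have : r i = none := by simpa [I] using hi
          simp [W, this]
        have h4 : (I.card : ℝ) ≤ N := by exact_mod_cast card_le_univ I
        rw [← sum_add_sum_compl I, h3]
        nlinarith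
      nlinarith
  refine (sum_le_sum fun r _ => key r).trans ?_
  rw [sum_const, card_univ, Fintype.card_fun, Fintype.card_option, Fintype.card_fin, nsmul_eq_mul]
  push_cast
  exact le_rfl

/-- If no nonzero vector is orthogonal to all the columns, some square submatrix made of columns
is nonsingular. -/
theorem exists_cols_det_ne_zero {ι κ : Type} [Fintype ι] [DecidableEq ι] (v : κ → ι → ℝ)
    (h : ∀ p : ι → ℝ, (∀ k, ∑ i, p i * v k i = 0) → p = 0) :
    ∃ c : ι → κ, (Matrix.of fun i j => v (c j) i).det ≠ 0 := by
  have hspan : Submodule.span ℝ (Set.range v) = ⊤ := by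
    by_contra hne
    obtain ⟨f, hf0, hf⟩ := Submodule.exists_le_ker_of_lt_top _ (lt_top_iff_ne_top.mpr hne)
    apply hf0
    have hp := h (fun i => f (Pi.single i 1)) (by
      intro k
      have h1 : f (v k) = 0 := hf (Submodule.subset_span ⟨k, rfl⟩)
      rw [← h1, LinearMap.pi_apply_eq_sum_univ]
      refine sum_congr rfl fun i _ => ?_
      rw [smul_eq_mul, mul_comm]
      have : (fun j => if i = j then (1 : ℝ) else 0) = Pi.single i 1 := by
        funext j; simp [Pi.single_apply, eq_comm]
      rw [this])
    ext i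
    simpa using congrFun hp i
  obtain ⟨κ', a, -, hsp, hli⟩ := exists_linearIndependent' ℝ v
  rw [hspan] at hsp
  let b := Module.Basis.mk hli (by rw [hsp])
  let eq := b.indexEquiv (Pi.basisFun ℝ ι)
  refine ⟨fun j => a (eq.symm j), ?_⟩
  have hli' : LinearIndependent ℝ (fun j => v (a (eq.symm j))) := hli.comp eq.symm eq.symm.injective
  rw [← Matrix.det_transpose]
  have := Matrix.linearIndependent_rows_iff_isUnit.mp
    (show LinearIndependent ℝ (Matrix.of fun j i => v (a (eq.symm j)) i).row from hli')
  exact (Matrix.isUnit_iff_isUnit_det _).mp this |>.ne_zero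

end Pool.Agent.Lib.Common.TwoLogs
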