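import Mathlib

/-!
Nesterenko's zero lemma on `G_a × G_m` for the points `(r n + s m, a^r b^s)`.
-/

set_option autoImplicit false

namespace Pool.Agent.Lib.Common.TwoLogs

open Finset Polynomial

theorem coeff_prod_sum {ι : Type} [DecidableEq ι] (s : Finset ι) (f : ι → ℝ[X]) (δ : ι → ℕ)
    (h : ∀ i ∈ s, (f i).natDegree ≤ δ i) :
    (∏ i ∈ s, f i).coeff (∑ i ∈ s, δ i) = ∏ i ∈ s, (f i).coeff (δ i) := by
  induction s using Finset.induction_on with
  | empty => simp
  | insert a s ha ih =>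
    rw [prod_insert ha, sum_insert ha, prod_insert ha,
      coeff_mul_add_eq_of_natDegree_le (h a (mem_insert_self _ _)),
      ih fun i hi => h i (mem_insert_of_mem hi)]
    exact (natDegree_prod_le _ _).trans
      (sum_le_sum fun i hi => h i (mem_insert_of_mem hi))

/-- The determinant of the translates of nonzero polynomials is a nonzero polynomial. -/
theorem det_translates {ν : ℕ} (q : Fin ν → ℝ[X]) (hq : ∀ l, q l ≠ 0) (t : Fin ν → ℝ)
    (ht : Function.Injective t) (c : ℝ) :
    (Matrix.of fun (j l : Fin ν) => taylor ((j : ℕ) * c) (q l) * C (t l ^ (j : ℕ))).det ≠ 0 ∧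
    (Matrix.of fun (j l : Fin ν) =>
      taylor ((j : ℕ) * c) (q l) * C (t l ^ (j : ℕ))).det.natDegree ≤ ∑ l, (q l).natDegree := by
  have hdeg : ∀ (j l : Fin ν),
      (taylor ((j : ℕ) * c) (q l) * C (t l ^ (j : ℕ))).natDegree ≤ (q l).natDegree := by
    intro j l
    refine (natDegree_mul_C_le _ _).trans ?_
    rw [natDegree_taylor]
  constructor
  · intro h0
    have h1 := congrArg (fun p => coeff p (∑ l, (q l).natDegree)) h0
    simp only [Matrix.det_apply', finsetSum_coeff, coeff_zero, Matrix.of_apply] at h1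
    have h2 : ∀ σ : Equiv.Perm (Fin ν),
        ((((Equiv.Perm.sign σ : ℤ) : ℝ[X])) * ∏ l, taylor ((σ l : ℕ) * c) (q l) *
          C (t l ^ (σ l : ℕ))).coeff (∑ l, (q l).natDegree) =
        (∏ l, (q l).leadingCoeff) * (((Equiv.Perm.sign σ : ℤ) : ℝ) * ∏ l, t l ^ (σ l : ℕ)) := by
      intro σ
      rw [← C_eq_intCast, coeff_C_mul, coeff_prod_sum _ _ _ fun l _ => hdeg _ l]
      simp only [coeff_mul_C, coeff_taylor_natDegree, prod_mul_distrib]
      ring
    rw [sum_congr rfl fun σ _ => h2 σ, ← mul_sum] at h1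
    have h3 : ∑ σ : Equiv.Perm (Fin ν), ((Equiv.Perm.sign σ : ℤ) : ℝ) * ∏ l, t l ^ (σ l : ℕ) =
        (Matrix.vandermonde t).det := by
      rw [← Matrix.det_transpose, Matrix.det_apply']
      simp [Matrix.vandermonde]
    rw [h3] at h1
    rcases mul_eq_zero.mp h1 with h | h
    · obtain ⟨l, -, hl⟩ := prod_eq_zero_iff.mp h
      exact hq l (leadingCoeff_eq_zero.mp hl)
    · exact (Matrix.det_vandermonde_ne_zero_iff.mpr ht) h
  · rw [Matrix.det_apply']
    refine natDegree_sum_le_of_forall_le _ _ fun σ _ => ?_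
    rw [← C_eq_intCast]
    refine (natDegree_C_mul_le _ _).trans ((natDegree_prod_le _ _).trans ?_)
    exact sum_le_sum fun l _ => hdeg _ l

/-- Zero lemma. -/
theorem zero_lemma (a b : ℝ) (ha : 0 < a) (hb : 1 < b) (m n K L R S : ℕ) (hmn : Nat.Coprime m n)
    (hR : R ≤ m) (hK : K * L ≤ R * S) (p : Fin K × Fin L → ℝ)
    (hp : ∀ r < R, ∀ s < S + L,
      ∑ i, p i * (((r * n + s * m : ℕ) : ℝ) ^ (i.1 : ℕ) * (a ^ r * b ^ s) ^ (i.2 : ℕ)) = 0) :
    p = 0 := by
  classical
  let Q : Fin L → ℝ[X] := fun l => ∑ k : Fin K, monomial k (p (k, l))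
  have hQcoeff : ∀ k l, (Q l).coeff (k : Fin K) = p (k, l) := by
    intro k l
    simp only [Q, finsetSum_coeff, coeff_monomial]
    rw [sum_eq_single k]
    · simp
    · intro k' _ hk'
      rw [if_neg (fun h => hk' (Fin.ext h))]
    · simp
  have hQeval : ∀ x y : ℝ, ∑ i : Fin K × Fin L, p i * (x ^ (i.1 : ℕ) * y ^ (i.2 : ℕ)) =
      ∑ l, (Q l).eval x * y ^ (l : ℕ) := by
    intro x y
    rw [Fintype.sum_prod_type_right]
    refine sum_congr rfl fun l _ => ?_
    simp only [Q, eval_finsetSum, eval_monomial, sum_mul]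
    exact sum_congr rfl fun k _ => by ring
  by_contra hne
  obtain ⟨⟨k0, l0⟩, h0⟩ := Function.ne_iff.mp hne
  have hK0 : 0 < K := k0.pos
  have hQdeg : ∀ l, (Q l).natDegree ≤ K - 1 := by
    intro l
    refine natDegree_sum_le_of_forall_le _ _ fun k _ => (natDegree_monomial_le _).trans ?_
    have := k.2
    omega
  let I : Finset (Fin L) := univ.filter fun l => Q l ≠ 0
  have hl0 : l0 ∈ I := by
    simp only [I, mem_filter, mem_univ, true_and]
    intro h
    apply h0
    rw [← hQcoeff, h]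
    simp
  let ν := I.card
  have hνL : ν ≤ L := by simpa using card_le_univ I
  have hν0 : 0 < ν := card_pos.mpr ⟨l0, hl0⟩
  let e : Fin ν ≃ I := I.equivFin.symm
  have ht : Function.Injective fun l : Fin ν => b ^ ((e l : Fin L) : ℕ) := by
    intro l l' h
    have := pow_right_injective₀ (by linarith : 0 < b) hb.ne' h
    exact e.injective (Subtype.ext (Fin.ext this))
  obtain ⟨hD0, hDdeg⟩ := det_translates (fun l => Q (e l)) (fun l => (mem_filter.mp (e l).2).2)
    _ ht (m : ℝ)
  apply hD0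
  have hm : 0 < m := by
    rcases Nat.eq_zero_or_pos m with h | h
    · have : R = 0 := by omega
      have h1 : 0 < K * L := Nat.mul_pos hK0 l0.pos
      rw [this] at hK
      omega
    · exact h
  refine eq_zero_of_natDegree_lt_card_of_eval_eq_zero _
    (f := fun rs : Fin R × Fin S => (((rs.1 : ℕ) * n + (rs.2 : ℕ) * m : ℕ) : ℝ)) ?_ ?_ ?_
  · rintro ⟨r, s⟩ ⟨r', s'⟩ h
    have h1 : (r : ℕ) * n + s * m = r' * n + s' * m := Nat.cast_injective (R := ℝ) h
    have h2 : (r : ℕ) * n ≡ r' * n [MOD m] := by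
      have h3 : (r : ℕ) * n + s * m ≡ r' * n + s' * m [MOD m] := by rw [h1]
      simpa [Nat.ModEq, Nat.add_mul_mod_self_right] using h3
    have h3 : (r : ℕ) ≡ r' [MOD m] := Nat.ModEq.cancel_right_of_coprime (by simpa using hmn) h2
    have h4 : (r : ℕ) = r' := Nat.ModEq.eq_of_lt_of_lt h3 (by have := r.2; omega)
      (by have := r'.2; omega)
    rw [h4] at h1
    have h5 : (s : ℕ) = s' := Nat.eq_of_mul_eq_mul_right hm (by omega)
    exact Prod.ext (Fin.ext h4) (Fin.ext h5)
  · rintro ⟨r, s⟩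
    rw [← coe_evalRingHom, RingHom.map_det, ← Matrix.exists_mulVec_eq_zero_iff]
    refine ⟨fun l => (a ^ (r : ℕ) * b ^ (s : ℕ)) ^ ((e l : Fin L) : ℕ), ?_, ?_⟩
    · intro h
      have := congrFun h ⟨0, hν0⟩
      have hb0 : 0 < b := by linarith
      exact absurd this (by positivity)
    · funext j
      have h1 := hp r r.2 (s + j) (by have := s.2; have := j.2; omega)
      rw [hQeval, ← sum_subset (subset_univ I) (fun l _ hl => by
        have : Q l = 0 := by simpa [I] using hl
        simp [this]), ← sum_coe_sort, ← Equiv.sum_comp e] at h1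
      rw [Pi.zero_apply, ← h1]
      simp only [Matrix.mulVec, dotProduct, RingHom.mapMatrix_apply, Matrix.map_apply,
        Matrix.of_apply, coe_evalRingHom, eval_mul, eval_C, taylor_eval]
      refine sum_congr rfl fun l _ => ?_
      push_cast
      rw [show ((r : ℕ) : ℝ) * n + (s : ℕ) * m + (j : ℕ) * m = (r : ℕ) * n + ((s : ℕ) + (j : ℕ)) * m
        by ring]
      simp only [mul_pow, pow_add, ← pow_mul]
      ring
  · refine hDdeg.trans_lt ?_
    rw [Fintype.card_prod, Fintype.card_fin, Fintype.card_fin]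
    calc ∑ l : Fin ν, (Q (e l)).natDegree ≤ ∑ l : Fin ν, (K - 1) := sum_le_sum fun l _ => hQdeg _
      _ = ν * (K - 1) := by simp
      _ ≤ L * (K - 1) := Nat.mul_le_mul_right _ hνL
      _ < L * K := Nat.mul_lt_mul_of_pos_left (by omega) l0.pos
      _ ≤ R * S := by rw [mul_comm]; exact hK

end Pool.Agent.Lib.Common.TwoLogs
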