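import Mathlib
import Pool.Agent.Lib.Common.TwoLogs.Det
import Pool.Agent.Lib.Common.TwoLogs.Zero

/-!
A lower bound `exp (-C log² B)` for a linear form in two logarithms of positive integers,
by Laurent's interpolation determinant.
-/

set_option autoImplicit false

namespace Pool.Agent.Lib.Common.TwoLogs

open Finset Real

theorem exp_tail (y E : ℝ) (hy : 0 ≤ y) (hE : 1 ≤ E) (T : ℕ) :
    |exp y - ∑ u ∈ range T, y ^ u / u.factorial| ≤ exp (E * y) / E ^ T := by
  rw [abs_of_nonneg (sub_nonneg.mpr (sum_le_exp_of_nonneg hy T)), sub_le_iff_le_add']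
  have h1 : ∀ z : ℝ, HasSum (fun u : ℕ => z ^ u / u.factorial) (exp z) := fun z => by
    rw [Real.exp_eq_exp_ℝ]; exact NormedSpace.expSeries_div_hasSum_exp z
  have h2 : HasSum (fun u : ℕ => if u ∈ range T then y ^ u / u.factorial else 0)
      (∑ u ∈ range T, y ^ u / u.factorial) := by
    have := hasSum_sum_of_ne_finset_zero (L := SummationFilter.unconditional ℕ)
      (f := fun u : ℕ => if u ∈ range T then y ^ u / u.factorial else 0) (s := range T)
      (fun u hu => if_neg hu)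
    rwa [sum_congr rfl fun u hu => if_pos hu] at this
  refine hasSum_le (fun u => ?_) (h1 y) (h2.add ((h1 (E * y)).div_const (E ^ T)))
  have hE0 : 0 < E := by linarith
  split_ifs with h
  · exact le_add_of_nonneg_right (by positivity)
  · rw [zero_add, le_div_iff₀ (by positivity), mul_pow, div_mul_eq_mul_div]
    refine div_le_div_of_nonneg_right ?_ (by positivity)
    rw [mul_comm]
    exact mul_le_mul_of_nonneg_right (pow_le_pow_right₀ hE (by simpa using h)) (by positivity)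

/-- The numerical inequality closing the argument. -/
theorem numeric (N : ℕ) (hN : 10000 ≤ N) (M0 : ℝ) (hM0 : 0 ≤ M0)
    (hM : M0 ≤ 2 * exp (3 / 4 * N)) :
    (N + 1 : ℝ) ^ N * (N.factorial * (M0 ^ N * exp (-2 * (N * (N - 1) / 2)))) < 1 := by
  have hN' : (10000 : ℝ) ≤ N := by exact_mod_cast hN
  have h1 : (N.factorial : ℝ) ≤ (N : ℝ) ^ N := by exact_mod_cast Nat.factorial_le_pow N
  have h2 : exp (-2 * (N * (N - 1) / 2 : ℝ)) = exp (1 - N) ^ N := by
    rw [← Real.exp_nat_mul]; congr 1; ring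
  have h3 : (N + 1 : ℝ) * (N * (M0 * exp (1 - N))) < 1 := by
    have h4 : M0 * exp (1 - N) ≤ 2 * exp 1 / exp (N / 4) := by
      rw [le_div_iff₀ (exp_pos _), mul_assoc, ← exp_add]
      refine (mul_le_mul_of_nonneg_right hM (exp_pos _).le).trans (le_of_eq ?_)
      rw [mul_assoc, ← exp_add]; congr 2; ring
    have h5 := Real.pow_div_factorial_le_exp (N / 4 : ℝ) (by positivity) 3
    have h6 : exp 1 ≤ 3 := (Real.exp_one_lt_d9.trans (by norm_num)).le
    have h7 : 2 * exp 1 / exp (N / 4) ≤ 6 / ((N / 4 : ℝ) ^ 3 / 6) := by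
      refine div_le_div₀ (by norm_num) (by linarith) (by positivity) ?_
      simpa [Nat.factorial] using h5
    have h8 : (N + 1 : ℝ) * (N * (6 / ((N / 4 : ℝ) ^ 3 / 6))) < 1 := by
      have : (N + 1 : ℝ) * (N * (6 / ((N / 4 : ℝ) ^ 3 / 6))) = 2304 * (N + 1) / N ^ 2 := by
        field_simp; ring
      rw [this, div_lt_one (by positivity)]
      nlinarith
    refine lt_of_le_of_lt ?_ h8
    gcongr
    exact h4.trans h7
  calc (N + 1 : ℝ) ^ N * (N.factorial * (M0 ^ N * exp (-2 * (N * (N - 1) / 2))))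
      ≤ (N + 1 : ℝ) ^ N * ((N : ℝ) ^ N * (M0 ^ N * exp (1 - N) ^ N)) := by
        rw [h2]; gcongr
    _ = ((N + 1 : ℝ) * (N * (M0 * exp (1 - N)))) ^ N := by simp only [mul_pow]
    _ < 1 := pow_lt_one₀ (by positivity) h3 (by omega)

theorem core (a b : ℕ) (ha : 2 ≤ a) (hb : 2 ≤ b) (c L m n : ℕ) (hmn : Nat.Coprime m n)
    (hc : 8 * exp 2 * (log a + log b + 1) ≤ c) (hc2 : 100 ≤ c)
    (hL : 4 + 4 * log (m + n) ≤ L) (hm : (c + 1) * L ≤ m) (hm0 : 0 < m) :
    exp (-3 * ((c : ℝ) * L) ^ 2) ≤ |m * log a - n * log b| := by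
  classical
  by_contra hcon
  push Not at hcon
  set Λ : ℝ := m * log a - n * log b with hΛ
  set A : ℝ := log a + log b + 1 with hA
  have ha' : (2 : ℝ) ≤ a := by exact_mod_cast ha
  have hb' : (2 : ℝ) ≤ b := by exact_mod_cast hb
  have hla : 0 < log (a : ℝ) := log_pos (by linarith)
  have hlb : 0 < log (b : ℝ) := log_pos (by linarith)
  have hm' : (1 : ℝ) ≤ m := by exact_mod_cast hm0
  have hn' : (0 : ℝ) ≤ n := by positivity
  have hlB : 0 ≤ log ((m : ℝ) + n) := log_nonneg (by linarith)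
  have hL4 : (4 : ℝ) ≤ L := by linarith
  have hL1 : 1 ≤ L := by exact_mod_cast (show (1 : ℝ) ≤ L by linarith)
  have hc' : (100 : ℝ) ≤ c := by exact_mod_cast hc2
  let K := c ^ 2 * L
  let S := (c + 1) * L
  let ι := Fin K × Fin L
  have hcard : Fintype.card ι = (c * L) ^ 2 := by
    simp only [ι, K, Fintype.card_prod, Fintype.card_fin]; ring
  set N := Fintype.card ι with hNdef
  have hNr : (N : ℝ) = ((c : ℝ) * L) ^ 2 := by rw [hcard]; push_cast; ring
  have hN : 10000 ≤ N := by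
    rw [hcard]
    have : 100 ≤ c * L := by nlinarith
    nlinarith
  have hSr : (S : ℝ) = (c + 1) * L := by simp [S]
  have hSm : (S : ℝ) ≤ m := by exact_mod_cast hm
  have hS1 : (1 : ℝ) ≤ S := by rw [hSr]; nlinarith
  -- a nonsingular minor
  let v : Fin (c * L) × Fin S → ι → ℝ := fun k i =>
    (((k.1 : ℕ) * n + (k.2 : ℕ) * m : ℕ) : ℝ) ^ (i.1 : ℕ) *
      ((a : ℝ) ^ (k.1 : ℕ) * (b : ℝ) ^ (k.2 : ℕ)) ^ (i.2 : ℕ)
  obtain ⟨col, hdet⟩ := exists_cols_det_ne_zero v (by
    intro p hp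
    refine zero_lemma a b (by linarith) (by linarith) m n K L (c * L) (c * L) hmn
      (le_trans (by nlinarith) hm) (le_of_eq (by simp only [K]; ring)) p ?_
    intro r hr s hs
    exact hp (⟨r, hr⟩, ⟨s, by simp only [S]; nlinarith⟩))
  have h1 : 1 ≤ |(Matrix.of fun i j => v (col j) i).det| := by
    let Mz : Matrix ι ι ℤ := Matrix.of fun i j =>
      ((((col j).1 : ℕ) * n + ((col j).2 : ℕ) * m : ℕ) : ℤ) ^ (i.1 : ℕ) *
        ((a : ℤ) ^ ((col j).1 : ℕ) * (b : ℤ) ^ ((col j).2 : ℕ)) ^ (i.2 : ℕ)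
    have : (Matrix.of fun i j => v (col j) i) = (Int.castRingHom ℝ).mapMatrix Mz := by
      ext i j
      simp [v, Mz]
    rw [this, ← RingHom.map_det] at hdet ⊢
    have h2 : Mz.det ≠ 0 := fun h => hdet (by rw [h, map_zero])
    have := Int.one_le_abs h2
    simp only [eq_intCast]
    exact_mod_cast this
  -- the analytic estimate
  set κ : ℝ := log b / m with hκ
  have hκ0 : 0 ≤ κ := by positivity
  set E : ℝ := exp 2 with hE
  have hE1 : 1 ≤ E := one_le_exp (by norm_num)
  set ρ : ℝ := S * (m + n) with hρ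
  have hρ1 : 1 ≤ ρ := by rw [hρ]; nlinarith
  have hΛ1 : |Λ| ≤ 1 := by
    refine hcon.le.trans (exp_le_one_iff.mpr ?_)
    nlinarith [sq_nonneg ((c : ℝ) * L)]
  have hκρ : κ * ρ ≤ S * A := by
    have h2 : κ * (m + n) = log b + log a - Λ / m := by
      rw [hκ, hΛ]; field_simp; ring
    have h3 : |Λ / m| ≤ 1 := by
      rw [abs_div, abs_of_pos (by linarith : (0 : ℝ) < m), div_le_one (by linarith)]
      linarith
    have h4 := (abs_le.mp h3).1
    calc κ * ρ = S * (κ * (m + n)) := by rw [hρ]; ring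
      _ ≤ S * A := by rw [h2]; exact mul_le_mul_of_nonneg_left (by linarith) (by linarith)
  let x : ι → ℝ := fun j => ((((col j).1 : ℕ) * n + ((col j).2 : ℕ) * m : ℕ) : ℝ)
  have hx0 : ∀ j, 0 ≤ x j := fun j => Nat.cast_nonneg _
  have hr : ∀ j, (((col j).1 : ℕ) : ℝ) ≤ S := fun j => by
    have h2 := (col j).1.2
    have h3 : ((col j).1 : ℕ) ≤ S := by simp only [S]; nlinarith
    exact_mod_cast h3
  have hx : ∀ j, x j ≤ ρ := fun j => by
    have h2 : (((col j).2 : ℕ) : ℝ) ≤ S := by exact_mod_cast (col j).2.2.le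
    have h3 := hr j
    simp only [x, hρ]
    push_cast
    nlinarith
  set M1 : ℝ := (E * ρ) ^ K * exp (E * (L * (S * A))) with hM1
  have hA0 : 0 ≤ A := by positivity
  have hEρ : 1 ≤ E * ρ := one_le_mul_of_one_le_of_one_le hE1 hρ1
  have hlκ : ∀ (i : ι) (y : ℝ), 0 ≤ y → y ≤ ρ → (i.2 : ℕ) * κ * y ≤ L * (S * A) := by
    intro i y hy0 hy
    have h2 : ((i.2 : ℕ) : ℝ) ≤ L := by exact_mod_cast i.2.2.le
    calc (i.2 : ℕ) * κ * y ≤ L * κ * ρ := by gcongr
      _ = L * (κ * ρ) := by ring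
      _ ≤ L * (S * A) := by gcongr
  have hpowK : ∀ (i : ι) (y : ℝ), 0 ≤ y → y ≤ E * ρ → y ^ (i.1 : ℕ) ≤ (E * ρ) ^ K := by
    intro i y hy0 hy
    exact (pow_le_pow_left₀ hy0 hy _).trans (pow_le_pow_right₀ hEρ i.1.2.le)
  have hEN : ∀ t : ℕ, exp (-2 * (t : ℝ)) = 1 / E ^ t := by
    intro t
    rw [hE, ← Real.exp_nat_mul, one_div, ← exp_neg]; congr 1; ring
  let w : ι → Fin N → ℝ := fun i u => ((i.2 : ℕ) * κ) ^ (u : ℕ) / (u : ℕ).factorial
  let d : ι → Fin N → ℕ := fun i u => i.1 + u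
  let e : ι → ι → ℝ := fun i j => v (col j) i - ∑ u, w i u * x j ^ d i u
  have h2 := abs_det_le N x w d e ρ (2 * M1) 2 (by positivity) (by norm_num)
    (fun j => by rw [abs_of_nonneg (hx0 j)]; exact hx j) ?_ ?_
  · have h3 : (Matrix.of fun i j => ∑ u, w i u * x j ^ d i u + e i j) =
        Matrix.of fun i j => v (col j) i := by
      ext i j
      simp [e]
    rw [h3] at h2
    refine absurd (h1.trans h2) (not_le.mpr (numeric N hN _ (by positivity) ?_))
    refine mul_le_mul_of_nonneg_left ?_ (by norm_num)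
    have h4 : E * ρ ≤ exp (L / 2) := by
      have h5 : ρ ≤ exp (2 * log (m + n)) := by
        rw [two_mul, exp_add, exp_log (by linarith), hρ]
        exact mul_le_mul_of_nonneg_right (by linarith) (by linarith)
      calc E * ρ ≤ exp 2 * exp (2 * log (m + n)) := by rw [hE]; gcongr
        _ = exp (2 + 2 * log (m + n)) := (exp_add _ _).symm
        _ ≤ exp (L / 2) := exp_le_exp.mpr (by linarith)
    calc M1 ≤ exp (L / 2) ^ K * exp (E * (L * (S * A))) := by rw [hM1]; gcongr
      _ = exp (K * (L / 2) + E * (L * (S * A))) := by rw [← Real.exp_nat_mul, ← exp_add]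
      _ ≤ exp (3 / 4 * N) := by
        refine exp_le_exp.mpr ?_
        have h5 : (K : ℝ) = c ^ 2 * L := by simp [K]
        have h6 : E * A ≤ c / 8 := by linarith
        have h7 : E * (L * (S * A)) ≤ (c / 8) * ((2 * c) * L ^ 2) := by
          calc E * (L * (S * A)) = (E * A) * ((c + 1) * L ^ 2) := by rw [hSr]; ring
            _ ≤ (c / 8) * ((2 * c) * L ^ 2) := by gcongr; linarith
        rw [h5, hNr]
        nlinarith
  · intro i u
    rw [hEN, mul_one_div, le_div_iff₀ (by positivity), abs_of_nonneg (by positivity)]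
    have h3 : w i u * ρ ^ d i u * E ^ d i u =
        (E * ρ) ^ (i.1 : ℕ) * ((E * ((i.2 : ℕ) * κ * ρ)) ^ (u : ℕ) / (u : ℕ).factorial) := by
      simp only [w, d, pow_add, mul_pow]; ring
    rw [h3]
    have h4 := Real.pow_div_factorial_le_exp (E * ((i.2 : ℕ) * κ * ρ)) (by positivity) u
    have h5 : exp (E * ((i.2 : ℕ) * κ * ρ)) ≤ exp (E * (L * (S * A))) :=
      exp_le_exp.mpr (mul_le_mul_of_nonneg_left (hlκ i ρ (by linarith) le_rfl) (by linarith))
    have h6 : 0 ≤ M1 := by positivity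
    have h7 := mul_le_mul (hpowK i _ (by linarith) le_rfl) (h4.trans h5) (by positivity)
      (by positivity)
    linarith
  · intro i j
    set y : ℝ := (i.2 : ℕ) * κ * x j with hy
    set η : ℝ := (i.2 : ℕ) * ((col j).1 : ℕ) * Λ / m with hη
    have hy0 : 0 ≤ y := by have := hx0 j; positivity
    have hyle : y ≤ L * (S * A) := hlκ i _ (hx0 j) (hx j)
    have h3 : v (col j) i = x j ^ (i.1 : ℕ) * (exp y * exp η) := by
      simp only [v, x]
      congr 1
      rw [← exp_add, ← exp_log (show (0 : ℝ) < ((a : ℝ) ^ ((col j).1 : ℕ) *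
        (b : ℝ) ^ ((col j).2 : ℕ)) ^ (i.2 : ℕ) by positivity)]
      congr 1
      rw [log_pow, log_mul (by positivity) (by positivity), log_pow, log_pow, hy, hη, hκ, hΛ]
      simp only [x]
      push_cast
      field_simp
      ring
    have h4 : ∑ u, w i u * x j ^ d i u =
        x j ^ (i.1 : ℕ) * ∑ u ∈ range N, y ^ u / u.factorial := by
      rw [mul_sum, ← Fin.sum_univ_eq_sum_range (fun u => x j ^ (i.1 : ℕ) * (y ^ u / u.factorial))]
      refine sum_congr rfl fun u _ => ?_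
      simp only [w, d, pow_add, hy, mul_pow]; ring
    have h5 : e i j = x j ^ (i.1 : ℕ) * (exp y * (exp η - 1) +
        (exp y - ∑ u ∈ range N, y ^ u / u.factorial)) := by
      simp only [e]; rw [h3, h4]; ring
    have hη1 : 2 * |η| ≤ 1 / E ^ N := by
      have h6 : |η| ≤ L * S * |Λ| := by
        rw [hη, abs_div, abs_mul, abs_of_nonneg (by positivity : (0 : ℝ) ≤ _ * _),
          abs_of_pos (by linarith : (0 : ℝ) < m)]
        refine (div_le_self (by positivity) hm').trans ?_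
        have h2 : ((i.2 : ℕ) : ℝ) ≤ L := by exact_mod_cast i.2.2.le
        have := hr j
        gcongr
      have h7 : 2 * (L * S : ℝ) ≤ exp N := by
        refine le_trans ?_ (Real.add_one_le_exp _)
        rw [hSr, hNr]
        nlinarith [mul_le_mul_of_nonneg_right (show 2 * (c + 1 : ℝ) ≤ c ^ 2 by nlinarith)
          (sq_nonneg (L : ℝ))]
      calc 2 * |η| ≤ 2 * (L * S) * |Λ| := by linarith
        _ ≤ exp N * exp (-3 * ((c : ℝ) * L) ^ 2) := by gcongr
        _ = 1 / E ^ N := by rw [← hEN, ← exp_add, hNr]; congr 1; ring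
    have hEN1 : 1 / E ^ N ≤ 1 := by
      rw [div_le_one (by positivity)]; exact one_le_pow₀ hE1
    have h8 : |exp η - 1| ≤ 1 / E ^ N :=
      (Real.abs_exp_sub_one_le (by linarith [abs_nonneg η])).trans hη1
    have h9 := exp_tail y E hy0 hE1 N
    have h10 : exp (E * y) ≤ exp (E * (L * (S * A))) := by gcongr
    have h11 : exp y ≤ exp (E * y) := exp_le_exp.mpr (le_mul_of_one_le_left hy0 hE1)
    have h12 : x j ^ (i.1 : ℕ) ≤ (E * ρ) ^ K :=
      hpowK i _ (hx0 j) ((hx j).trans (le_mul_of_one_le_left (by linarith) hE1))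
    rw [h5, abs_mul, abs_of_nonneg (pow_nonneg (hx0 j) _), hEN]
    have h13 : |exp y * (exp η - 1) + (exp y - ∑ u ∈ range N, y ^ u / u.factorial)| ≤
        2 * exp (E * (L * (S * A))) * (1 / E ^ N) := by
      refine (abs_add_le _ _).trans ?_
      rw [abs_mul, abs_of_pos (exp_pos _)]
      have h14 : exp y * |exp η - 1| ≤ exp (E * (L * (S * A))) * (1 / E ^ N) :=
        mul_le_mul (h11.trans h10) h8 (abs_nonneg _) (exp_pos _).le
      have h15 : exp (E * y) / E ^ N ≤ exp (E * (L * (S * A))) * (1 / E ^ N) := by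
        rw [mul_one_div]; gcongr
      linarith
    calc _ ≤ (E * ρ) ^ K * (2 * exp (E * (L * (S * A))) * (1 / E ^ N)) :=
          mul_le_mul h12 h13 (abs_nonneg _) (by positivity)
      _ = _ := by rw [hM1]; ring

end Pool.Agent.Lib.Common.TwoLogs
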