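import Mathlib
import Pool.Agent.Lib.Common.TwoLogs.Core

/-!
A lower bound `exp (-C log² B)` for a linear form in two logarithms of positive integers.
-/

set_option autoImplicit false

namespace Pool.Agent.Lib.Common.TwoLogs

open Finset Real Filter

/-- Liouville's inequality for the logarithms of two distinct positive integers. -/
theorem liouville (x y : ℕ) (hx : 0 < x) (hy : 0 < y) (hxy : x ≠ y) :
    1 / ((x : ℝ) * y) ≤ |log x - log y| := by
  wlog h : y < x generalizing x y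
  · rw [abs_sub_comm, mul_comm]
    exact this y x hy hx hxy.symm (by omega)
  have hx' : (0 : ℝ) < x := by exact_mod_cast hx
  have hy' : (1 : ℝ) ≤ y := by exact_mod_cast hy
  have h1 : (y : ℝ) + 1 ≤ x := by exact_mod_cast h
  refine le_trans ?_ (le_abs_self _)
  have h2 := Real.log_le_sub_one_of_pos (show (0 : ℝ) < y / x by positivity)
  rw [log_div (by linarith) hx'.ne'] at h2
  have h3 : 1 / ((x : ℝ) * y) ≤ 1 - y / x := by
    rw [div_le_iff₀ (by positivity)]
    have : (1 - y / x : ℝ) * (x * y) = (x - y) * y := by field_simp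
    rw [this]
    nlinarith
  linarith

theorem coprime_case (a b : ℕ) (ha : 2 ≤ a) (hb : 2 ≤ b) :
    ∃ C : ℝ, 0 < C ∧ ∀ m n : ℕ, Nat.Coprime m n → n ≤ m → (a : ℝ) ^ m ≠ (b : ℝ) ^ n →
      exp (-C * log (m + n + 2) ^ 2) ≤ |m * log a - n * log b| := by
  have ha' : (2 : ℝ) ≤ a := by exact_mod_cast ha
  have hb' : (2 : ℝ) ≤ b := by exact_mod_cast hb
  have hla : 0 < log (a : ℝ) := log_pos (by linarith)
  have hlb : 0 < log (b : ℝ) := log_pos (by linarith)
  obtain ⟨c, hc⟩ := exists_nat_ge (8 * exp 2 * (log a + log b + 1) + 100)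
  have hc0 : 0 ≤ 8 * exp 2 * (log a + log b + 1) := by positivity
  have hc2 : 100 ≤ c := by exact_mod_cast (show (100 : ℝ) ≤ c by linarith)
  have hc' : (100 : ℝ) ≤ c := by linarith
  have hev : ∀ᶠ t : ℝ in atTop, (c + 1) * (5 + 4 * log t) ≤ t / 2 := by
    have h1 := (Real.isLittleO_log_id_atTop.bound (show (0 : ℝ) < 1 / (16 * (c + 1)) by positivity))
    filter_upwards [h1, eventually_ge_atTop (20 * (c + 1 : ℝ))] with t h2 h3
    have ht : 0 < t := by linarith
    rw [id, Real.norm_of_nonneg ht.le] at h2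
    have h4 : log t ≤ 1 / (16 * (c + 1)) * t := (le_abs_self _).trans h2
    have h5 : (c + 1) * log t ≤ t / 16 := by
      calc (c + 1) * log t ≤ (c + 1) * (1 / (16 * (c + 1)) * t) := by gcongr
        _ = t / 16 := by field_simp
    linarith
  obtain ⟨B0, hB0⟩ := eventually_atTop.mp hev
  refine ⟨243 * (c : ℝ) ^ 2 + |B0| * (log a + log b), by positivity, ?_⟩
  intro m n hmn hnm hne
  have hm0 : 0 < m := by
    rcases Nat.eq_zero_or_pos m with h | h
    · have : n = 0 := by omega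
      subst h; subst this; simp at hne
    · exact h
  have hm' : (1 : ℝ) ≤ m := by exact_mod_cast hm0
  have hn' : (0 : ℝ) ≤ n := by positivity
  have hnm' : (n : ℝ) ≤ m := by exact_mod_cast hnm
  have hlog1 : 1 ≤ log ((m : ℝ) + n + 2) := by
    rw [le_log_iff_exp_le (by linarith)]
    have := Real.exp_one_lt_d9
    linarith
  have hlog2 : log ((m : ℝ) + n) ≤ log ((m : ℝ) + n + 2) := log_le_log (by linarith) (by linarith)
  have hlog0 : 0 ≤ log ((m : ℝ) + n) := log_nonneg (by linarith)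
  have hsq : 1 ≤ log ((m : ℝ) + n + 2) ^ 2 := one_le_pow₀ hlog1
  have hP : 0 ≤ |B0| * (log a + log b) := by positivity
  by_cases hB : B0 ≤ (m : ℝ) + n
  · let L := ⌈4 + 4 * log ((m : ℝ) + n)⌉₊
    have hL1 : 4 + 4 * log ((m : ℝ) + n) ≤ L := Nat.le_ceil _
    have hL2 : (L : ℝ) ≤ 5 + 4 * log ((m : ℝ) + n) := by
      have := Nat.ceil_lt_add_one (show 0 ≤ 4 + 4 * log ((m : ℝ) + n) by positivity)
      linarith
    have hLm : (c + 1) * L ≤ m := by
      have h1 := hB0 _ hB
      have h2 : ((c : ℝ) + 1) * L ≤ (c + 1) * (5 + 4 * log ((m : ℝ) + n)) := by gcongr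
      exact_mod_cast (show ((c : ℝ) + 1) * L ≤ m by linarith)
    refine le_trans (exp_le_exp.mpr ?_) (core a b ha hb c L m n hmn (by linarith) hc2 hL1 hLm hm0)
    have h3 : (L : ℝ) ≤ 9 * log ((m : ℝ) + n + 2) := by linarith
    have h4 : ((c : ℝ) * L) ^ 2 ≤ (c * (9 * log ((m : ℝ) + n + 2))) ^ 2 := by gcongr
    nlinarith
  · have h1 := liouville (a ^ m) (b ^ n) (by positivity) (by positivity)
      (fun h => hne (by exact_mod_cast h))
    push_cast at h1
    rw [log_pow, log_pow] at h1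
    refine le_trans ?_ h1
    rw [← exp_log (show (0 : ℝ) < (a : ℝ) ^ m * (b : ℝ) ^ n by positivity), one_div, ← exp_neg,
      exp_le_exp, log_mul (by positivity) (by positivity), log_pow, log_pow]
    have h2 : (m : ℝ) + n ≤ |B0| := (not_le.mp hB).le.trans (le_abs_self _)
    have h3 : m * log (a : ℝ) + n * log (b : ℝ) ≤ |B0| * (log a + log b) := by nlinarith
    have h4 : 0 ≤ 243 * (c : ℝ) ^ 2 := by positivity
    nlinarith

/-- Lower bound for a linear form in two logarithms. -/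
theorem two_logs (a b : ℕ) (ha : 2 ≤ a) (hb : 2 ≤ b) :
    ∃ C : ℝ, 0 < C ∧ ∀ m n : ℕ, (a : ℝ) ^ m ≠ (b : ℝ) ^ n →
      exp (-C * log (m + n + 2) ^ 2) ≤ |m * log a - n * log b| := by
  obtain ⟨C1, hC1, h1⟩ := coprime_case a b ha hb
  obtain ⟨C2, hC2, h2⟩ := coprime_case b a hb ha
  have h3 : ∀ m n : ℕ, Nat.Coprime m n → (a : ℝ) ^ m ≠ (b : ℝ) ^ n →
      exp (-(C1 + C2) * log (m + n + 2) ^ 2) ≤ |m * log a - n * log b| := by
    intro m n hmn hne
    have h0 := sq_nonneg (log ((m : ℝ) + n + 2))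
    rcases le_total n m with h | h
    · exact le_trans (exp_le_exp.mpr (by nlinarith)) (h1 m n hmn h hne)
    · have := h2 n m hmn.symm h hne.symm
      rw [abs_sub_comm, add_comm (n : ℝ)] at this
      exact le_trans (exp_le_exp.mpr (by nlinarith)) this
  refine ⟨C1 + C2, by positivity, fun m n hne => ?_⟩
  have hg : 0 < Nat.gcd m n := by
    rcases Nat.eq_zero_or_pos (Nat.gcd m n) with h | h
    · obtain ⟨rfl, rfl⟩ := Nat.gcd_eq_zero_iff.mp h
      simp at hne
    · exact h
  obtain ⟨g, m', n', hg1, hco, rfl, rfl⟩ := Nat.exists_coprime' hg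
  have hg' : (1 : ℝ) ≤ g := by exact_mod_cast hg1
  have h4 := h3 m' n' hco (fun h => hne (by rw [pow_mul, pow_mul, h]))
  have hm' : (0 : ℝ) ≤ m' := by positivity
  have hn' : (0 : ℝ) ≤ n' := by positivity
  have h5 : log ((m' : ℝ) + n' + 2) ≤ log (((m' * g : ℕ) : ℝ) + ((n' * g : ℕ) : ℝ) + 2) := by
    refine log_le_log (by positivity) ?_
    push_cast
    nlinarith
  have h6 : 0 ≤ log ((m' : ℝ) + n' + 2) := log_nonneg (by linarith)
  have h7 : |((m' * g : ℕ) : ℝ) * log a - ((n' * g : ℕ) : ℝ) * log b| =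
      |m' * log a - n' * log b| * g := by
    rw [← abs_of_pos (show (0 : ℝ) < g by linarith), ← abs_mul]
    push_cast
    congr 1
    ring
  rw [h7]
  refine le_trans (exp_le_exp.mpr ?_) (h4.trans (le_mul_of_one_le_right (abs_nonneg _) hg'))
  have h8 := pow_le_pow_left₀ h6 h5 2
  nlinarith

end Pool.Agent.Lib.Common.TwoLogs
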